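import Pool.Agent.Helper29.F4.Lam

/-!
# The grading defined by a diagonalizable element
-/

namespace Pool.Agent.Helper29.F4

open LinearMap Pool.Agent.Helper66.OTR Pool.Agent.Helper29.MX Polynomial
open Pool.Agent.Helper68.LM (lieZar Tdiag Tdiag_apply torus_mem)

set_option linter.unusedSectionVars false

section

variable {V : Type} [AddCommGroup V] [Module ℂ V] {κ : Type} [Fintype κ]

lemma Tdiag_repr (b : Module.Basis κ ℂ V) (a : κ → ℂ) (x : V) (i : κ) :
    b.repr (Tdiag b a x) i = a i * b.repr x i := by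
  classical
  have h : (b.coord i) ∘ₗ (Tdiag b a) = (a i) • (b.coord i) := by
    refine b.ext fun j => ?_
    rw [LinearMap.comp_apply, Tdiag_apply, LinearMap.smul_apply, map_smul, Module.Basis.coord_apply,
      Module.Basis.repr_self, smul_eq_mul, smul_eq_mul]
    by_cases hij : j = i
    · rw [hij]
    · rw [Finsupp.single_eq_of_ne (Ne.symm hij), mul_zero, mul_zero]
  exact congrArg (fun f => f x) h

lemma repr_ext (b : Module.Basis κ ℂ V) {x y : V} (h : ∀ i, b.repr x i = b.repr y i) : x = y :=
  b.repr.injective (Finsupp.ext h)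

variable {Λ : Type*} [AddCommGroup Λ] [DecidableEq Λ]

/-- the projections -/
noncomputable def Pr (b : Module.Basis κ ℂ V) (w : κ → Λ) (l : Λ) : Module.End ℂ V :=
  Tdiag b fun i => if w i = l then 1 else 0

lemma Pr_repr (b : Module.Basis κ ℂ V) (w : κ → Λ) (l : Λ) (x : V) (i : κ) :
    b.repr (Pr b w l x) i = if w i = l then b.repr x i else 0 := by
  rw [Pr, Tdiag_repr]
  split_ifs
  · rw [one_mul]
  · rw [zero_mul]

lemma Pr_eq_iff (b : Module.Basis κ ℂ V) (w : κ → Λ) (l : Λ) (x : V) :
    Pr b w l x = x ↔ ∀ i, w i ≠ l → b.repr x i = 0 := by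
  constructor
  · intro h i hi
    rw [← h, Pr_repr, if_neg hi]
  · intro h
    refine repr_ext b fun i => ?_
    rw [Pr_repr]
    split_ifs with hi
    · rfl
    · exact (h i hi).symm

/-- polynomials in an operator preserve invariant subspaces -/
lemma aeval_mem {M : Type*} [AddCommGroup M] [Module ℂ M] (H : Module.End ℂ M)
    (W : Submodule ℂ M) (hW : ∀ x ∈ W, H x ∈ W) (p : ℂ[X]) {x : M} (hx : x ∈ W) :
    aeval H p x ∈ W := by
  induction p using Polynomial.induction_on with
  | C a =>
    rw [aeval_C, Module.algebraMap_end_apply]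
    exact W.smul_mem a hx
  | add p q hp hq =>
    rw [map_add, LinearMap.add_apply]
    exact W.add_mem hp hq
  | monomial n a h =>
    have e : aeval H (C a * X ^ (n + 1)) x = H (aeval H (C a * X ^ n) x) := by
      simp only [map_mul, aeval_C, map_pow, aeval_X, Module.End.mul_apply,
        Module.algebraMap_end_apply, map_smul, pow_succ']
    rw [e]
    exact hW _ h

lemma aeval_Tdiag (b : Module.Basis κ ℂ V) (a : κ → ℂ) (p : ℂ[X]) :
    aeval (Tdiag b a) p = Tdiag b fun i => p.eval (a i) := by
  refine b.ext fun i => ?_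
  rw [Tdiag_apply]
  induction p using Polynomial.induction_on with
  | C c => rw [aeval_C, Module.algebraMap_end_apply, eval_C]
  | add p q hp hq => rw [map_add, LinearMap.add_apply, hp, hq, eval_add, add_smul]
  | monomial n c h =>
    have e : aeval (Tdiag b a) (C c * X ^ (n + 1)) (b i) =
        Tdiag b a (aeval (Tdiag b a) (C c * X ^ n) (b i)) := by
      simp only [map_mul, aeval_C, map_pow, aeval_X, Module.End.mul_apply,
        Module.algebraMap_end_apply, map_smul, pow_succ']
    rw [e, h, map_smul, Tdiag_apply, smul_smul]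
    congr 1
    simp only [eval_mul, eval_C, eval_pow, eval_X]
    ring

/-- polynomials in `ad H` for `H` diagonal -/
lemma aeval_ad (b : Module.Basis κ ℂ V) (a : κ → ℂ) (p : ℂ[X]) (Y : Module.End ℂ V) (i j : κ) :
    b.repr ((aeval (LinearMap.mulLeft ℂ (Tdiag b a) - LinearMap.mulRight ℂ (Tdiag b a)) p Y)
      (b i)) j = p.eval (a j - a i) * b.repr (Y (b i)) j := by
  induction p using Polynomial.induction_on with
  | C c =>
    rw [aeval_C, Module.algebraMap_end_apply, eval_C, LinearMap.smul_apply, map_smul,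
      Finsupp.smul_apply, smul_eq_mul]
  | add p q hp hq =>
    rw [map_add, LinearMap.add_apply, LinearMap.add_apply, map_add, Finsupp.add_apply, hp, hq,
      eval_add, add_mul]
  | monomial n c h =>
    have e : aeval (LinearMap.mulLeft ℂ (Tdiag b a) - LinearMap.mulRight ℂ (Tdiag b a))
        (C c * X ^ (n + 1)) Y =
        (LinearMap.mulLeft ℂ (Tdiag b a) - LinearMap.mulRight ℂ (Tdiag b a))
          (aeval (LinearMap.mulLeft ℂ (Tdiag b a) - LinearMap.mulRight ℂ (Tdiag b a))
            (C c * X ^ n) Y) := by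
      simp only [map_mul, aeval_C, map_pow, aeval_X, Module.End.mul_apply,
        Module.algebraMap_end_apply, map_smul, pow_succ']
    rw [e]
    generalize (aeval (LinearMap.mulLeft ℂ (Tdiag b a) - LinearMap.mulRight ℂ (Tdiag b a))
            (C c * X ^ n) Y) = Z at h ⊢
    rw [LinearMap.sub_apply, LinearMap.mulLeft_apply, LinearMap.mulRight_apply,
      LinearMap.sub_apply, Module.End.mul_apply, Module.End.mul_apply, Tdiag_apply, map_smul,
      map_sub, map_smul, Finsupp.sub_apply, Finsupp.smul_apply, Tdiag_repr, h, smul_eq_mul]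
    simp only [eval_mul, eval_C, eval_pow, eval_X]
    ring

/-- **The grading** -/
theorem exists_grd [FiniteDimensional ℂ V] {ψ : LinearMap.BilinForm ℂ V}
    {g : Submodule ℂ (Module.End ℂ V)} (hclosed : LieClosed g) (b : Module.Basis κ ℂ V)
    (w : κ → Λ) (m : Λ) (hψ : ∀ i j, ψ (b i) (b j) ≠ 0 → w i + w j = m)
    (hφ : ∀ φ : Λ →+ ℚ, Tdiag b (fun i => (φ (w i) : ℂ)) ∈ g)
    (hgen : ∀ F : Finset Λ, (0 : Λ) ∉ F → ∃ φ : Λ →+ ℚ, ∀ f ∈ F, φ f ≠ 0) :
    Grd ψ g (Pr b w) m := by
  classical
  have hinj : ∀ D : Finset Λ, ∃ φ : Λ →+ ℚ, Set.InjOn (fun l => (φ l : ℂ)) D := by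
    intro D
    obtain ⟨φ, hφ⟩ := hgen ((Finset.image₂ (fun x y => x - y) D D).erase 0) (by simp)
    refine ⟨φ, fun x hx y hy hxy => ?_⟩
    by_contra hne
    refine hφ (x - y) ?_ ?_
    · rw [Finset.mem_erase]
      exact ⟨sub_ne_zero.2 hne, Finset.mem_image₂_of_mem hx hy⟩
    · rw [map_sub, sub_eq_zero]
      exact Rat.cast_injective hxy
  refine ⟨⟨Finset.univ.image w, fun x => ?_⟩, fun l x => ?_, fun l l' x hne => ?_, ?_, ?_, ?_⟩
  · refine repr_ext b fun i => ?_
    rw [map_sum, Finsupp.finsetSum_apply, Finset.sum_eq_single (w i)]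
    · rw [Pr_repr, if_pos rfl]
    · intro l _ hl
      rw [Pr_repr, if_neg hl.symm]
    · intro h
      exact absurd (Finset.mem_image_of_mem w (Finset.mem_univ i)) h
  · rw [Pr_eq_iff]
    intro i hi
    rw [Pr_repr, if_neg hi]
  · refine repr_ext b fun i => ?_
    rw [Pr_repr, Pr_repr, map_zero, Finsupp.zero_apply]
    split_ifs with h1 h2
    · exact absurd (h1.symm.trans h2) hne
    · rfl
    · rfl
  · intro W hW l x hx
    by_cases hl : l ∈ Finset.univ.image w
    · obtain ⟨φ, hφi⟩ := hinj (Finset.univ.image w)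
      have e : aeval (Tdiag b (fun i => (φ (w i) : ℂ)))
          (Lagrange.basis (Finset.univ.image w) (fun l => (φ l : ℂ)) l) = Pr b w l := by
        rw [aeval_Tdiag, Pr]
        congr 1
        funext i
        by_cases h : w i = l
        · rw [if_pos h, h, Lagrange.eval_basis_self hφi hl]
        · rw [if_neg h]
          exact Lagrange.eval_basis_of_ne (v := fun l => (φ l : ℂ)) (Ne.symm h)
            (Finset.mem_image_of_mem w (Finset.mem_univ i))
      rw [← e]
      exact aeval_mem _ W (fun y hy => hW _ (hφ φ) y hy) _ hx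
    · have e : Pr b w l x = 0 := by
        refine repr_ext b fun i => ?_
        rw [Pr_repr, if_neg, map_zero, Finsupp.zero_apply]
        rintro rfl
        exact hl (Finset.mem_image_of_mem w (Finset.mem_univ i))
      rw [e]
      exact W.zero_mem
  · intro l l' x y hx hy hne
    rw [Pr_eq_iff] at hx hy
    by_contra hcon
    apply hne
    rw [← b.sum_repr x, ← b.sum_repr y, map_sum]
    refine Finset.sum_eq_zero fun j _ => ?_
    rw [map_sum, LinearMap.sum_apply]
    refine Finset.sum_eq_zero fun i _ => ?_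
    rw [map_smul, map_smul, LinearMap.smul_apply, smul_eq_mul, smul_eq_mul]
    by_cases hi : w i = l
    · by_cases hj : w j = l'
      · have : ψ (b i) (b j) = 0 := by
          by_contra h
          exact hcon (by rw [← hi, ← hj]; exact hψ i j h)
        rw [this, mul_zero, mul_zero]
      · rw [hy j hj, zero_mul]
    · rw [hx i hi, zero_mul, mul_zero]
  · intro X hX
    by_cases hκ : Nonempty κ
    · obtain ⟨D, hD⟩ : ∃ D : Finset Λ, D = Finset.image₂ (fun x y => x - y)
          (Finset.univ.image w) (Finset.univ.image w) := ⟨_, rfl⟩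
      have hDmem : ∀ i j, w j - w i ∈ D := by
        intro i j
        rw [hD]
        exact Finset.mem_image₂_of_mem (Finset.mem_image_of_mem w (Finset.mem_univ j))
          (Finset.mem_image_of_mem w (Finset.mem_univ i))
      have hDne : D.Nonempty := by
        obtain ⟨i⟩ := hκ
        exact ⟨_, hDmem i i⟩
      obtain ⟨φ, hφi⟩ := hinj D
      obtain ⟨ad, had⟩ : ∃ ad : Module.End ℂ (Module.End ℂ V),
          ad = LinearMap.mulLeft ℂ (Tdiag b (fun i => (φ (w i) : ℂ))) -
            LinearMap.mulRight ℂ (Tdiag b (fun i => (φ (w i) : ℂ))) := ⟨_, rfl⟩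
      have hadg : ∀ Y ∈ g, ad Y ∈ g := by
        intro Y hY
        rw [had, LinearMap.sub_apply, LinearMap.mulLeft_apply, LinearMap.mulRight_apply]
        exact hclosed _ (hφ φ) _ hY
      have e : X = ∑ k ∈ D, aeval ad (Lagrange.basis D (fun l => (φ l : ℂ)) k) X := by
        rw [← LinearMap.sum_apply, ← map_sum, Lagrange.sum_basis hφi hDne, map_one,
          Module.End.one_apply]
      rw [e]
      refine Submodule.sum_mem _ fun k hk => Submodule.subset_span
        ⟨aeval_mem _ g hadg _ hX, k, fun l x hx => ?_⟩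
      rw [Pr_eq_iff] at hx ⊢
      intro j hj
      conv_lhs => rw [← b.sum_repr x]
      rw [map_sum, map_sum, Finsupp.finsetSum_apply]
      refine Finset.sum_eq_zero fun i _ => ?_
      by_cases hi : w i = l
      · rw [map_smul, map_smul, Finsupp.smul_apply, had, aeval_ad]
        have e2 : (φ (w j) : ℂ) - (φ (w i) : ℂ) = ((φ (w j - w i) : ℚ) : ℂ) := by
          rw [map_sub]
          push_cast
          ring
        have e3 : (Lagrange.basis D (fun l => (φ l : ℂ)) k).eval
            ((φ (w j) : ℂ) - (φ (w i) : ℂ)) = 0 := by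
          rw [e2]
          refine Lagrange.eval_basis_of_ne (v := fun l => (φ l : ℂ)) ?_ (hDmem i j)
          rintro rfl
          apply hj
          rw [← hi]
          abel
        rw [e3, zero_mul, smul_zero]
      · rw [hx i hi, zero_smul, map_zero, map_zero, Finsupp.zero_apply]
    · have : X = 0 := by
        refine b.ext fun i => ?_
        exact absurd ⟨i⟩ hκ
      rw [this]
      exact Submodule.zero_mem _

end

end Pool.Agent.Helper29.F4
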