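import Pool.Agent.Helper29.F4.Diag
import Pool.Agent.Helper84.LM.Defs

/-!
# The theorem for groups of similitudes
-/

namespace Pool.Agent.Helper29.F4

open LinearMap Pool.Agent.Helper66.OTR Pool.Agent.Helper29.MX
open Pool.Agent.Helper68.LM (lieZar Tdiag Tdiag_apply torus_mem lieZar_bracket lieZar_infSim)
open Pool.Agent.Helper84.LM (InLie)

set_option linter.unusedSectionVars false

/-- A semisimple endomorphism has an eigenbasis. -/
theorem exists_basis {V : Type} [AddCommGroup V] [Module ℂ V] [FiniteDimensional ℂ V]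
    (γ : Module.End ℂ V) (hγ : γ.IsSemisimple) :
    ∃ (κ : Type) (_ : Fintype κ) (b : Module.Basis κ ℂ V) (z : κ → ℂ), ∀ i, γ (b i) = z i • b i := by
  classical
  have h1 : ⨆ μ : ℂ, γ.eigenspace μ = ⊤ := by
    have h2 := Module.End.iSup_maxGenEigenspace_eq_top γ
    simpa only [hγ.isFinitelySemisimple.maxGenEigenspace_eq_eigenspace] using h2
  let E : Set V := {v | ∃ w : ℂ, γ v = w • v}
  have hE : Submodule.span ℂ E = ⊤ := by
    rw [eq_top_iff, ← h1]
    apply iSup_le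
    intro μ v hv
    exact Submodule.subset_span ⟨μ, Module.End.mem_eigenspace_iff.1 hv⟩
  obtain ⟨s, hs, hspan, hli⟩ := exists_linearIndependent ℂ E
  rw [hE] at hspan
  let b : Module.Basis s ℂ V := Module.Basis.mk hli (by rw [Subtype.range_coe, hspan])
  have hb : ∀ i : s, b i = i := fun i => by rw [Module.Basis.mk_apply]
  have hfin : Finite s := Module.Finite.finite_basis b
  have hfty : Fintype s := Fintype.ofFinite s
  choose z hz using fun i : s => hs i.2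
  exact ⟨s, hfty, b, z, fun i => by rw [hb]; exact hz i⟩

/-- **The theorem for groups of similitudes.** -/
theorem final {V : Type} [AddCommGroup V] [Module ℂ V] [FiniteDimensional ℂ V]
    (ψ : LinearMap.BilinForm ℂ V) (hnd : ψ.Nondegenerate) (halt : ∀ x, ψ x x = 0)
    (G : Subgroup (Module.End ℂ V)ˣ)
    (hG : ∀ g ∈ G, ∃ c : ℂ, ∀ x y, ψ ((g : Module.End ℂ V) x) ((g : Module.End ℂ V) y) = c * ψ x y)
    (hss : ∀ U : Submodule ℂ V, (∀ X, InLie G X → ∀ u ∈ U, X u ∈ U) →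
      ∃ U' : Submodule ℂ V, (∀ X, InLie G X → ∀ u ∈ U', X u ∈ U') ∧ IsCompl U U')
    (γ : (Module.End ℂ V)ˣ) (hγ : γ ∈ G) (hγss : (γ : Module.End ℂ V).IsSemisimple)
    (c : ℂ) (hc : ∀ x y, ψ ((γ : Module.End ℂ V) x) ((γ : Module.End ℂ V) y) = c * ψ x y)
    {A : Type} [AddCommGroup A] (v : ℂ → A) (hv : ∀ x y, x ≠ 0 → y ≠ 0 → v (x * y) = v x + v y)
    (hv1 : ∀ (x : ℂ) (n : ℕ), 0 < n → x ^ n = 1 → v x = 0)
    (V' : Submodule ℂ V) (hV' : ∀ X, InLie G X → ∀ x ∈ V', X x ∈ V')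
    (hV'nd : ∀ x ∈ V', (∀ y ∈ V', ψ x y = 0) → x = 0)
    (H : ∀ W ≤ V', (∀ X, InLie G X → ∀ x ∈ W, X x ∈ W) →
      (∀ U ≤ W, (∀ X, InLie G X → ∀ x ∈ U, X x ∈ U) → U = ⊥ ∨ U = W) →
      2 ≤ Module.finrank ℂ W →
      ∃ α δ : ℂ, (∃ x ∈ W, x ≠ 0 ∧ (γ : Module.End ℂ V) x = α • x) ∧
        (∃ x ∈ W, x ≠ 0 ∧ (γ : Module.End ℂ V) x = δ • x) ∧ v δ ≠ v α ∧
        (∀ n : ℕ, 0 < n →
          Module.finrank ℂ (Module.End.eigenspace ((γ : Module.End ℂ V) ^ n) (α ^ n)) = 1) ∧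
        ∀ β : Fin 3 → ℂ, (∀ i, Module.End.HasEigenvalue (γ : Module.End ℂ V) (β i)) →
          (∃ n : ℕ, 0 < n ∧ (α * β 0 * β 1 * β 2) ^ n = c ^ (2 * n)) →
          (∃ i, α * β i = c) ∨ ∀ i, v (α * β i) = v c)
    (X Y : Module.End ℂ V)
    (hX : ∀ x y, ψ (X x) y + ψ x (X y) = 0) (hX' : ∀ x, (∀ y ∈ V', ψ x y = 0) → X x = 0)
    (hXT : ∀ T : Module.End ℂ V, (∀ Z, InLie G Z → T * Z = Z * T) → X * T = T * X)
    (hY : ∀ x y, ψ (Y x) y + ψ x (Y y) = 0) (hY' : ∀ x, (∀ y ∈ V', ψ x y = 0) → Y x = 0)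
    (hYT : ∀ T : Module.End ℂ V, (∀ Z, InLie G Z → T * Z = Z * T) → Y * T = T * Y) :
    InLie G (X * Y - Y * X) := by
  classical
  show X * Y - Y * X ∈ lieZar G
  by_cases htriv : Nontrivial V
  swap
  · have hsub : Subsingleton V := not_nontrivial_iff_subsingleton.1 htriv
    have : X * Y - Y * X = 0 := by
      ext x
      exact Subsingleton.elim _ _
    rw [this]
    exact Submodule.zero_mem _
  obtain ⟨κ, hκ, b, z, hb⟩ := exists_basis (γ : Module.End ℂ V) hγss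
  have hγinj : ∀ x, (γ : Module.End ℂ V) x = 0 → x = 0 := by
    intro x hx
    have h2 : ((γ⁻¹ : (Module.End ℂ V)ˣ) : Module.End ℂ V) ((γ : Module.End ℂ V) x) = x := by
      rw [← Module.End.mul_apply, Units.inv_mul, Module.End.one_apply]
    rw [hx, map_zero] at h2
    exact h2.symm
  have hev0 : ∀ (α : ℂ) (x : V), x ≠ 0 → (γ : Module.End ℂ V) x = α • x → α ≠ 0 := by
    rintro α x hx h rfl
    rw [zero_smul] at h
    exact hx (hγinj x h)
  have hz0 : ∀ i, z i ≠ 0 := fun i => hev0 _ _ (b.ne_zero i) (hb i)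
  have hc0 : c ≠ 0 := by
    rintro rfl
    obtain ⟨x, hx⟩ := exists_ne (0 : V)
    obtain ⟨y, hy⟩ := exists_ne_of_nd hnd hx
    have hsurj : ∀ y, (γ : Module.End ℂ V) (((γ⁻¹ : (Module.End ℂ V)ˣ) : Module.End ℂ V) y) = y := by
      intro y
      rw [← Module.End.mul_apply, Units.mul_inv, Module.End.one_apply]
    have h1 := hc (((γ⁻¹ : (Module.End ℂ V)ˣ) : Module.End ℂ V) x)
      (((γ⁻¹ : (Module.End ℂ V)ˣ) : Module.End ℂ V) y)
    rw [hsurj, hsurj, zero_mul] at h1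
    exact hy h1
  obtain ⟨cu, hcu⟩ : ∃ cu : ℂˣ, (cu : ℂ) = c := ⟨Units.mk0 c hc0, rfl⟩
  obtain ⟨zu, hzu⟩ : ∃ zu : κ → ℂˣ, ∀ i, (zu i : ℂ) = z i :=
    ⟨fun i => Units.mk0 (z i) (hz0 i), fun i => rfl⟩
  obtain ⟨w, hw⟩ : ∃ w : κ → Lam, ∀ i, w i = cl (zu i) := ⟨fun i => cl (zu i), fun i => rfl⟩
  have d : Bas ψ (lieZar G) :=
    { nd := hnd
      alt := halt
      closed := fun X hX Y hY => lieZar_bracket hX hY
      gsp := fun X hX => lieZar_infSim ψ hG hX
      ss := hss }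
  have hγdiag : (γ : Module.End ℂ V) = Tdiag b z := by
    refine b.ext fun i => ?_
    rw [hb, Tdiag_apply]
  have hγpow : ∀ n : ℕ, (γ : Module.End ℂ V) ^ n = Tdiag b fun i => z i ^ n := by
    intro n
    refine b.ext fun i => ?_
    rw [Tdiag_apply]
    induction n with
    | zero => rw [pow_zero, pow_zero, Module.End.one_apply, one_smul]
    | succ n ih =>
      rw [pow_succ, Module.End.mul_apply, hb, map_smul, ih, smul_smul, pow_succ, mul_comm]
  have hψ : ∀ i j, ψ (b i) (b j) ≠ 0 → w i + w j = cl cu := by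
    intro i j hne
    have h1 := hc (b i) (b j)
    rw [hb, hb, map_smul, map_smul, LinearMap.smul_apply, smul_eq_mul, smul_eq_mul] at h1
    have h2 : z i * z j = c := by
      have h3 : (z i * z j - c) * ψ (b i) (b j) = 0 := by linear_combination h1
      exact sub_eq_zero.1 ((mul_eq_zero.1 h3).resolve_right hne)
    rw [hw, hw, ← cl_mul]
    congr 1
    ext
    rw [Units.val_mul, hzu, hzu, hcu, h2]
  have hφ : ∀ φ : Lam →+ ℚ, Tdiag b (fun i => (φ (w i) : ℂ)) ∈ lieZar G := by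
    intro φ
    refine torus_mem hγ b z hb (fun i => (φ (w i) : ℂ)) ?_ (fun i => Tdiag_apply b _ i)
    intro n hn
    have h1 : ∏ i, zu i ^ n i = 1 := by
      ext
      push_cast
      rw [← hn]
      exact Finset.prod_congr rfl fun i _ => by rw [hzu]
    have h2 : ∑ i, n i • w i = 0 := by
      have h3 : clHom (Additive.ofMul (∏ i, zu i ^ n i)) = ∑ i, n i • w i := by
        rw [ofMul_prod, map_sum]
        refine Finset.sum_congr rfl fun i _ => ?_
        rw [ofMul_zpow, map_zsmul, hw]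
        rfl
      rw [← h3, h1, ofMul_one, map_zero]
    have h4 : ∑ i, (n i : ℚ) * φ (w i) = 0 := by
      have h5 := congrArg φ h2
      rw [map_sum, map_zero] at h5
      rw [← h5]
      refine Finset.sum_congr rfl fun i _ => ?_
      rw [map_zsmul, zsmul_eq_mul]
    have h6 := congrArg (fun q : ℚ => (q : ℂ)) h4
    simpa using h6
  have Gr : Grd ψ (lieZar G) (Pr b w) (cl cu) :=
    exists_grd d.closed b w (cl cu) hψ hφ exists_phi
  -- the homomorphism on classes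
  obtain ⟨vh, hvh⟩ : ∃ vh : Additive ℂˣ →+ A, ∀ x, vh x = v ((x.toMul : ℂˣ) : ℂ) :=
    ⟨{ toFun := fun x => v ((x.toMul : ℂˣ) : ℂ)
       map_zero' := hv1 _ 1 one_pos (by simp)
       map_add' := fun x y => by
        show v (((x + y).toMul : ℂˣ) : ℂ) = _
        rw [toMul_add, Units.val_mul]
        exact hv _ _ (Units.ne_zero _) (Units.ne_zero _) }, fun x => rfl⟩
  have hvtor : AddCommGroup.torsion (Additive ℂˣ) ≤ vh.ker := by
    intro x hx
    rw [AddCommGroup.mem_torsion, isOfFinAddOrder_iff_nsmul_eq_zero] at hx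
    obtain ⟨n, hn, h⟩ := hx
    rw [AddMonoidHom.mem_ker, hvh]
    refine hv1 _ n hn ?_
    have h1 : (x.toMul : ℂˣ) ^ n = 1 := h
    rw [← Units.val_pow_eq_pow_val, h1, Units.val_one]
  obtain ⟨vl, hvl⟩ : ∃ vl : Lam →+ A, ∀ x : ℂˣ, vl (cl x) = v (x : ℂ) :=
    ⟨QuotientAddGroup.lift _ vh hvtor, fun x => by
      unfold cl
      rw [QuotientAddGroup.lift_mk, hvh]
      rfl⟩
  -- eigenvectors of `γ` are homogeneous
  have heig : ∀ (αu : ℂˣ) (x : V), (γ : Module.End ℂ V) x = (αu : ℂ) • x →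
      Pr b w (cl αu) x = x := by
    intro αu x hx
    rw [Pr_eq_iff]
    intro i hi
    have h1 : z i * b.repr x i = αu * b.repr x i := by
      rw [← Tdiag_repr, ← hγdiag, hx, map_smul, Finsupp.smul_apply, smul_eq_mul]
    by_contra hne
    apply hi
    rw [hw]
    congr 1
    ext
    rw [hzu]
    exact mul_right_cancel₀ hne h1
  have hperp : ∀ x, x ∈ ψ.orthogonal V' ↔ ∀ y ∈ V', ψ x y = 0 := fun x => mem_perp d
  refine main vl Gr d hV' (fun x hx hx' => hV'nd x hx ((hperp x).1 hx')) ?_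
    (fun x y => eq_neg_of_add_eq_zero_left (hX x y)) (fun x y => eq_neg_of_add_eq_zero_left (hY x y))
    (fun x hx => hX' x ((hperp x).1 hx)) (fun x hx => hY' x ((hperp x).1 hx)) hXT hYT
  intro W hWV hW hirr h2
  obtain ⟨α, δ, ⟨u, hu, hu0, hγu⟩, ⟨x₀, hx₀, hx₀0, hγx₀⟩, hne, hsimp, hrel⟩ :=
    H W hWV hW hirr.2 h2
  have hα0 := hev0 α u hu0 hγu
  have hδ0 := hev0 δ x₀ hx₀0 hγx₀
  obtain ⟨αu, hαu⟩ : ∃ αu : ℂˣ, (αu : ℂ) = α := ⟨Units.mk0 α hα0, rfl⟩
  obtain ⟨δu, hδu⟩ : ∃ δu : ℂˣ, (δu : ℂ) = δ := ⟨Units.mk0 δ hδ0, rfl⟩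
  rw [← hαu] at hγu hsimp hrel hne
  rw [← hδu] at hγx₀ hne
  refine ⟨cl αu, cl δu, by rw [hvl, hvl]; exact hne, ⟨u, hu, hu0, heig αu u hγu, ?_⟩,
    ⟨x₀, hx₀, hx₀0, heig δu x₀ hγx₀⟩, ?_⟩
  · -- simplicity
    intro x hx
    rw [Pr_eq_iff] at hx
    have hex : ∀ i, ∃ n : ℕ, 0 < n ∧ (w i = cl αu → zu i ^ n = αu ^ n) := by
      intro i
      by_cases h : w i = cl αu
      · have h3 := h
        rw [hw] at h3
        obtain ⟨n, hn, h4⟩ := cl_eq.1 h3
        exact ⟨n, hn, fun _ => h4⟩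
      · exact ⟨1, one_pos, fun h' => absurd h' h⟩
    choose n hn hn' using hex
    obtain ⟨N, hN⟩ : ∃ N : ℕ, N = ∏ i, n i := ⟨_, rfl⟩
    have hNpos : 0 < N := by
      rw [hN]
      exact Finset.prod_pos fun i _ => hn i
    have hzN : ∀ i, w i = cl αu → z i ^ N = (αu : ℂ) ^ N := by
      intro i hi
      obtain ⟨k, hk⟩ : n i ∣ N := by
        rw [hN]
        exact Finset.dvd_prod_of_mem n (Finset.mem_univ i)
      have h3 : zu i ^ N = αu ^ N := by rw [hk, pow_mul, pow_mul, hn' i hi]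
      have h4 := congrArg (fun y : ℂˣ => (y : ℂ)) h3
      simp only [Units.val_pow_eq_pow_val, hzu] at h4
      exact h4
    have hxN : x ∈ Module.End.eigenspace ((γ : Module.End ℂ V) ^ N) ((αu : ℂ) ^ N) := by
      rw [Module.End.mem_eigenspace_iff, hγpow]
      refine repr_ext b fun i => ?_
      rw [Tdiag_repr, map_smul, Finsupp.smul_apply, smul_eq_mul]
      by_cases hi : w i = cl αu
      · rw [hzN i hi]
      · rw [hx i hi, mul_zero, mul_zero]
    have huN : u ∈ Module.End.eigenspace ((γ : Module.End ℂ V) ^ N) ((αu : ℂ) ^ N) := by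
      have h3 := heig αu u hγu
      rw [Pr_eq_iff] at h3
      rw [Module.End.mem_eigenspace_iff, hγpow]
      refine repr_ext b fun i => ?_
      rw [Tdiag_repr, map_smul, Finsupp.smul_apply, smul_eq_mul]
      by_cases hi : w i = cl αu
      · rw [hzN i hi]
      · rw [h3 i hi, mul_zero, mul_zero]
    have h3 := (finrank_eq_one_iff_of_nonzero' (⟨u, huN⟩ :
      Module.End.eigenspace ((γ : Module.End ℂ V) ^ N) ((αu : ℂ) ^ N))
      (fun h => hu0 (congrArg Subtype.val h))).1 (hsimp N hNpos) ⟨x, hxN⟩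
    obtain ⟨t, ht⟩ := h3
    exact ⟨t, (congrArg Subtype.val ht).symm⟩
  · -- relations
    intro b₁ b₂ b₃ w1 w2 w3 hsum
    have hwt : ∀ l, Wt (Pr b w) l → ∃ β : ℂˣ, l = cl β ∧
        Module.End.HasEigenvalue (γ : Module.End ℂ V) (β : ℂ) := by
      rintro l ⟨x, hx0, hx⟩
      rw [Pr_eq_iff] at hx
      obtain ⟨i, hi⟩ : ∃ i, w i = l := by
        by_contra hcon
        push Not at hcon
        apply hx0
        refine repr_ext b fun i => ?_
        rw [hx i (hcon i), map_zero, Finsupp.zero_apply]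
      refine ⟨zu i, by rw [← hi, hw], ?_⟩
      rw [hzu]
      exact Module.End.hasEigenvalue_of_hasEigenvector
        ⟨Module.End.mem_eigenspace_iff.2 (hb i), b.ne_zero i⟩
    obtain ⟨β₁, rfl, e1⟩ := hwt b₁ w1
    obtain ⟨β₂, rfl, e2⟩ := hwt b₂ w2
    obtain ⟨β₃, rfl, e3⟩ := hwt b₃ w3
    rw [← cl_mul, ← cl_mul, ← cl_mul, ← cl_mul] at hsum
    obtain ⟨n, hn, hn'⟩ := cl_eq.1 hsum
    have hn'' : ((αu : ℂ) * β₁ * β₂ * β₃) ^ n = c ^ (2 * n) := by
      have h3 := congrArg (fun y : ℂˣ => (y : ℂ)) hn'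
      simp only [Units.val_pow_eq_pow_val, Units.val_mul, hcu] at h3
      rw [h3, pow_mul, pow_two]
    have hcl : ∀ β : ℂˣ, (αu : ℂ) * β = c → cl αu + cl β = cl cu := by
      intro β h
      rw [← cl_mul]
      congr 1
      ext
      rw [Units.val_mul, h, hcu]
    have hvcl : ∀ β : ℂˣ, v ((αu : ℂ) * β) = v c → vl (cl αu + cl β) = vl (cl cu) := by
      intro β h
      rw [← cl_mul, hvl, hvl, Units.val_mul, h, hcu]
    rcases hrel ![(β₁ : ℂ), β₂, β₃] (by
      intro i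
      fin_cases i
      · exact e1
      · exact e2
      · exact e3) ⟨n, hn, by simpa using hn''⟩ with ⟨i, hi⟩ | hall
    · left
      fin_cases i
      · exact Or.inl (hcl β₁ hi)
      · exact Or.inr (Or.inl (hcl β₂ hi))
      · exact Or.inr (Or.inr (hcl β₃ hi))
    · right
      exact ⟨hvcl β₁ (hall 0), hvcl β₂ (hall 1), hvcl β₃ (hall 2)⟩

end Pool.Agent.Helper29.F4
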