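import Pool.Agent.Helper29.F4.Bas

/-!
# Gradings by an abelian group
-/

namespace Pool.Agent.Helper29.F4

open LinearMap Pool.Agent.Helper66.OTR Pool.Agent.Helper29.MX

set_option linter.unusedSectionVars false

variable {K V Λ : Type*} [Field K] [AddCommGroup V] [Module K V] [FiniteDimensional K V]
variable [AddCommGroup Λ]

/-- `X` is homogeneous of degree `k` -/
def Ho (P : Λ → Module.End K V) (k : Λ) (X : Module.End K V) : Prop :=
  ∀ (l : Λ) (x : V), P l x = x → P (k + l) (X x) = X x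

/-- a grading with all the compatibilities -/
structure Grd (ψ : LinearMap.BilinForm K V) (g : Submodule K (Module.End K V))
    (P : Λ → Module.End K V) (m : Λ) : Prop where
  fin : ∃ s : Finset Λ, ∀ x, ∑ l ∈ s, P l x = x
  idem : ∀ l x, P l (P l x) = P l x
  orth : ∀ l l' x, l ≠ l' → P l (P l' x) = 0
  pst : ∀ W : Submodule K V, Stab g W → ∀ l, ∀ x ∈ W, P l x ∈ W
  form : ∀ l l' x y, P l x = x → P l' y = y → ψ x y ≠ 0 → l + l' = m
  dec : ∀ X ∈ g, X ∈ Submodule.span K {Y | Y ∈ g ∧ ∃ k, Ho P k Y}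

/-- weights -/
def Wt (P : Λ → Module.End K V) (l : Λ) : Prop := ∃ x, x ≠ 0 ∧ P l x = x

variable {ψ : LinearMap.BilinForm K V} {g : Submodule K (Module.End K V)}
variable {P : Λ → Module.End K V} {m : Λ}

namespace Grd

/-- induction on vectors of a stable subspace -/
lemma wind (G : Grd ψ g P m) {W : Submodule K V} (hW : Stab g W) {p : V → Prop} (h0 : p 0)
    (hadd : ∀ x y, p x → p y → p (x + y)) (hh : ∀ l, ∀ x ∈ W, P l x = x → p x) {x : V}
    (hx : x ∈ W) : p x := by
  obtain ⟨s, hs⟩ := G.fin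
  rw [← hs x]
  refine Finset.sum_induction _ p hadd h0 (fun l _ => hh l _ (G.pst W hW l x hx) (G.idem l x))

lemma wind' (G : Grd ψ g P m) {W : Submodule K V} (hW : Stab g W) {p : W → Prop} (h0 : p 0)
    (hadd : ∀ x y, p x → p y → p (x + y)) (hh : ∀ (l : Λ) (x : W), P l x = (x : V) → p x)
    (x : W) : p x := by
  obtain ⟨s, hs⟩ := G.fin
  have h1 : x = ∑ l ∈ s, (⟨P l x, G.pst W hW l x x.2⟩ : W) := by
    apply Subtype.ext
    rw [Submodule.coe_sum]
    exact (hs x).symm
  rw [h1]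
  exact Finset.sum_induction _ p hadd h0 (fun l _ => hh l _ (G.idem l x))

lemma vind (G : Grd ψ g P m) {p : V → Prop} (h0 : p 0)
    (hadd : ∀ x y, p x → p y → p (x + y)) (hh : ∀ l x, P l x = x → p x) (x : V) : p x :=
  G.wind (W := ⊤) (fun _ _ _ _ => trivial) h0 hadd (fun l x _ h => hh l x h) trivial

/-- induction on elements of `g` -/
lemma gind (G : Grd ψ g P m) {p : Module.End K V → Prop} (h0 : p 0)
    (hadd : ∀ X Y, p X → p Y → p (X + Y)) (hsmul : ∀ (t : K) X, p X → p (t • X))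
    (hh : ∀ k, ∀ X ∈ g, Ho P k X → p X) {X : Module.End K V} (hX : X ∈ g) : p X := by
  refine Submodule.span_induction (p := fun X _ => p X) ?_ h0 (fun X Y _ _ h1 h2 => hadd X Y h1 h2)
    (fun t X _ h => hsmul t X h) (G.dec X hX)
  rintro Y ⟨hY, k, hk⟩
  exact hh k Y hY hk

lemma of_ne (G : Grd ψ g P m) {l l' : Λ} {x : V} (h : P l x = x) (hne : l' ≠ l) : P l' x = 0 := by
  rw [← h]
  exact G.orth _ _ _ hne

lemma eq_of (G : Grd ψ g P m) {l l' : Λ} {x : V} (h : P l x = x) (h' : P l' x = x) (h0 : x ≠ 0) :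
    l = l' := by
  by_contra hne
  exact h0 (by rw [← h, G.of_ne h' hne])

/-- commutation of the projections with homogeneous operators -/
lemma P_mul (G : Grd ψ g P m) {k : Λ} {X : Module.End K V} (hX : Ho P k X) (l : Λ) (x : V) :
    P l (X x) = X (P (l - k) x) := by
  refine G.vind (p := fun x => P l (X x) = X (P (l - k) x)) ?_ ?_ ?_ x
  · simp
  · intro x y h1 h2
    rw [map_add, map_add, map_add, map_add, h1, h2]
  · intro l' x hx
    by_cases h : l - k = l'
    · have h2 : k + l' = l := by rw [← h]; abel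
      rw [h, hx]
      have := hX l' x hx
      rwa [h2] at this
    · rw [G.of_ne hx h, map_zero]
      refine G.of_ne (hX l' x hx) ?_
      rintro rfl
      apply h
      abel

lemma Ho_comm (_G : Grd ψ g P m) {k k' : Λ} {X Y : Module.End K V} (hX : Ho P k X)
    (hY : Ho P k' Y) : Ho P (k + k') (X * Y - Y * X) := by
  intro l x hx
  have h1 := hX _ _ (hY l x hx)
  have h2 := hY _ _ (hX l x hx)
  have e1 : k + (k' + l) = k + k' + l := by abel
  have e2 : k' + (k + l) = k + k' + l := by abel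
  rw [e1] at h1
  rw [e2] at h2
  rw [LinearMap.sub_apply, Module.End.mul_apply, Module.End.mul_apply, map_sub, h1, h2]

/-- orthogonality -/
lemma form' (G : Grd ψ g P m) {l : Λ} {x : V} (hx : P l x = x) (y : V) :
    ψ x y = ψ x (P (m - l) y) := by
  refine G.vind (p := fun y => ψ x y = ψ x (P (m - l) y)) ?_ ?_ ?_ y
  · simp
  · intro a b h1 h2
    rw [map_add, map_add, map_add, h1, h2]
  · intro l' y hy
    by_cases h : m - l = l'
    · rw [h, hy]
    · rw [G.of_ne hy h, map_zero]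
      by_contra hne
      apply h
      rw [← G.form _ _ _ _ hx hy hne]
      abel

lemma form0 (G : Grd ψ g P m) {l l' : Λ} {x y : V} (hx : P l x = x) (hy : P l' y = y)
    (h : l + l' ≠ m) : ψ x y = 0 := by
  by_contra hne
  exact h (G.form _ _ _ _ hx hy hne)

lemma Wt_dual [CharZero K] (G : Grd ψ g P m) (d : Bas ψ g) {l : Λ} (h : Wt P l) : Wt P (m - l) := by
  obtain ⟨x, hx0, hx⟩ := h
  obtain ⟨y, hy⟩ := exists_ne_of_nd d.nd hx0
  rw [G.form' hx] at hy
  refine ⟨P (m - l) y, ?_, G.idem _ _⟩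
  intro h0
  rw [h0, map_zero] at hy
  exact hy rfl

/-- homogeneous elements of nonzero degree are skew -/
lemma skew (G : Grd ψ g P m) (d : Bas ψ g) {k : Λ} (hk : k ≠ 0) {X : Module.End K V} (hX : X ∈ g)
    (h : Ho P k X) : Skew ψ X := by
  obtain ⟨c, hc⟩ := d.gsp X hX
  have key : ∀ x y, ψ (X x) y + ψ x (X y) = 0 := by
    intro x y
    refine G.vind (p := fun x => ψ (X x) y + ψ x (X y) = 0) ?_ ?_ ?_ x
    · simp
    · intro a b h1 h2
      rw [map_add, map_add, map_add, LinearMap.add_apply, LinearMap.add_apply]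
      linear_combination h1 + h2
    · intro l x hx
      refine G.vind (p := fun y => ψ (X x) y + ψ x (X y) = 0) ?_ ?_ ?_ y
      · simp
      · intro a b h1 h2
        rw [map_add, map_add, map_add]
        linear_combination h1 + h2
      · intro l' y hy
        by_cases hm : l + l' = m
        · have h1 : ψ (X x) y = 0 := G.form0 (h l x hx) hy (by
            intro h3
            apply hk
            have : k + (l + l') = m := by rw [← add_assoc]; exact h3
            rw [hm] at this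
            exact add_eq_right.1 this)
          have h2 : ψ x (X y) = 0 := G.form0 hx (h l' y hy) (by
            intro h3
            apply hk
            have : k + (l + l') = m := by rw [← h3]; abel
            rw [hm] at this
            exact add_eq_right.1 this)
          rw [h1, h2, add_zero]
        · rw [hc, G.form0 hx hy hm, mul_zero]
  intro x y
  exact eq_neg_of_add_eq_zero_left (key x y)

end Grd

/-- **Hit.** -/
theorem hit {A : Type*} [AddCommGroup A] (v : Λ →+ A) (G : Grd ψ g P m) (d : Bas ψ g)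
    {W W₁ : Submodule K V} (hW : Stab g W) (hirr : IrrW g W) (hW₁ : Stab g W₁)
    (hdis : ∀ x ∈ W₁, x ∈ ψ.orthogonal W → x = 0) {δ : Λ} {x : V} (hx : x ∈ W) (hx0 : x ≠ 0)
    (hxδ : P δ x = x) {l : Λ} {z : V} (hz : z ∈ W₁) (hz0 : z ≠ 0) (hzl : P l z = z)
    (hne : v (m - δ) ≠ v l) : ∃ k, ∃ X ∈ g, Ho P k X ∧ v k ≠ 0 ∧ X z ≠ 0 := by
  by_contra hcon
  push Not at hcon
  obtain ⟨Q, hQ⟩ : ∃ Q : Submodule K V, ∀ q, q ∈ Q ↔ q ∈ W₁ ∧ (∀ ν, v ν ≠ v l → P ν q = 0) ∧
      ∀ k, ∀ X ∈ g, Ho P k X → v k ≠ 0 → X q = 0 := by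
    refine ⟨{
      carrier := {q | q ∈ W₁ ∧ (∀ ν, v ν ≠ v l → P ν q = 0) ∧
        ∀ k, ∀ X ∈ g, Ho P k X → v k ≠ 0 → X q = 0}
      zero_mem' := ⟨W₁.zero_mem, by simp, by simp⟩
      add_mem' := ?_
      smul_mem' := ?_ }, fun q => Iff.rfl⟩
    · rintro a b ⟨h1, h2, h3⟩ ⟨h1', h2', h3'⟩
      refine ⟨W₁.add_mem h1 h1', fun ν hν => ?_, fun k X hX hk hv => ?_⟩
      · rw [map_add, h2 ν hν, h2' ν hν, add_zero]
      · rw [map_add, h3 k X hX hk hv, h3' k X hX hk hv, add_zero]
    · rintro t a ⟨h1, h2, h3⟩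
      refine ⟨W₁.smul_mem t h1, fun ν hν => ?_, fun k X hX hk hv => ?_⟩
      · rw [map_smul, h2 ν hν, smul_zero]
      · rw [map_smul, h3 k X hX hk hv, smul_zero]
  have hQst : Stab g Q := by
    intro Y hY q hq
    refine G.gind (p := fun Y => Y q ∈ Q) ?_ ?_ ?_ ?_ hY
    · exact Q.zero_mem
    · intro X Y h1 h2
      exact Q.add_mem h1 h2
    · intro t X h
      exact Q.smul_mem t h
    · intro k Y hY hk
      rw [hQ] at hq
      obtain ⟨h1, h2, h3⟩ := hq
      by_cases hv : v k = 0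
      · rw [hQ]
        refine ⟨hW₁ Y hY q h1, fun ν hν => ?_, fun k' X hX hk' hv' => ?_⟩
        · rw [G.P_mul hk, h2 (ν - k) (by rwa [map_sub, hv, sub_zero]), map_zero]
        · have e : X (Y q) = (X * Y - Y * X) q + Y (X q) := by simp
          rw [e, h3 k' X hX hk' hv', map_zero, add_zero]
          refine h3 (k' + k) _ (d.closed X hX Y hY) (G.Ho_comm hk' hk) ?_
          rwa [map_add, hv, add_zero]
      · rw [h3 k Y hY hk hv]
        exact Q.zero_mem
  have hzQ : z ∈ Q := by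
    rw [hQ]
    refine ⟨hz, fun ν hν => G.of_ne hzl ?_, fun k X hX hk hv => hcon k X hX hk hv⟩
    rintro rfl
    exact hν rfl
  -- `Q^⊥ ⊓ W` is zero
  rcases hirr.2 _ inf_le_right (stab_inf (stab_perp d hQst) hW) with h | h
  · have hxQ : x ∉ ψ.orthogonal Q := by
      intro hxQ
      have : x ∈ ψ.orthogonal Q ⊓ W := ⟨hxQ, hx⟩
      rw [h] at this
      exact hx0 ((Submodule.mem_bot K).1 this)
    apply hxQ
    rw [mem_perp d]
    intro q hq
    rw [hQ] at hq
    rw [G.form' hxδ, hq.2.1 _ hne, map_zero]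
  · apply hz0
    refine hdis z hz ?_
    rw [mem_perp d]
    intro y hy
    have : y ∈ ψ.orthogonal Q ⊓ W := by rw [h]; exact hy
    rw [neg d, (mem_perp d).1 this.1 z hzQ, neg_zero]

/-- the four term condition for the weight `a` -/
def Rel {A : Type*} [AddCommGroup A] (v : Λ →+ A) (P : Λ → Module.End K V) (m a : Λ) : Prop :=
  ∀ b₁ b₂ b₃ : Λ, Wt P b₁ → Wt P b₂ → Wt P b₃ → a + b₁ + b₂ + b₃ = m + m →
    (a + b₁ = m ∨ a + b₂ = m ∨ a + b₃ = m) ∨
      (v (a + b₁) = v m ∧ v (a + b₂) = v m ∧ v (a + b₃) = v m)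

/-- skew operators which map `u^⊥` to the line of `u` -/
lemma dot_of [CharZero K] (d : Bas ψ g) {X : Module.End K V} (hX : Skew ψ X) {u e : V}
    (he : ψ u e = 1) (h : ∀ x, ψ u x = 0 → ∃ t : K, X x = t • u) :
    X = dot ψ u (X e - (ψ (X e) e / 2) • u) := by
  ext x
  rw [dot_apply]
  obtain ⟨t, ht⟩ := h (x - ψ u x • e) (by rw [map_sub, map_smul, he, smul_eq_mul, mul_one, sub_self])
  have h1 : X x = ψ u x • X e + t • u := by
    rw [← ht, map_sub, map_smul]
    abel
  have h2 : ψ (X e) x = ψ u x * ψ (X e) e + t := by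
    have e1 : ψ (X e) (x - ψ u x • e) = t := by
      rw [hX, ht, map_smul, neg d e u, he, smul_eq_mul]
      ring
    rw [map_sub, map_smul, smul_eq_mul] at e1
    linear_combination e1
  rw [h1, map_sub, LinearMap.sub_apply, map_smul, LinearMap.smul_apply, h2, smul_eq_mul]
  module

/-- **Elements of rank two.** -/
theorem exists_dot [CharZero K] {A : Type*} [AddCommGroup A] (v : Λ →+ A) (G : Grd ψ g P m)
    (d : Bas ψ g) {W W₁ : Submodule K V} (hW : Stab g W) (hirr : IrrW g W) (hW₁ : Stab g W₁)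
    (hdis : ∀ x ∈ W₁, x ∈ ψ.orthogonal W → x = 0) {δ a : Λ} {x₀ : V} (hx₀ : x₀ ∈ W)
    (hx₀0 : x₀ ≠ 0) (hxδ : P δ x₀ = x₀) (hne : v δ ≠ v a) {u : V} (hua : P a u = u)
    (hs : ∀ x, P a x = x → ∃ t : K, x = t • u) (hrel : Rel v P m a)
    (hpair : ∃ x ∈ W₁, ψ u x ≠ 0) :
    ∃ e ∈ W₁, P (m - a) e = e ∧ ψ u e = 1 ∧ (∀ y, P (m - a) y = y → ∃ t : K, y = t • e) ∧
      ∃ k w, v k ≠ 0 ∧ w ≠ 0 ∧ P (k + (m - a)) w = w ∧ dot ψ u w ∈ g ∧ ψ u w = 0 := by
  obtain ⟨x, hx, hxne⟩ := hpair
  rw [G.form' hua] at hxne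
  obtain ⟨e, he⟩ : ∃ e, e = (ψ u (P (m - a) x))⁻¹ • P (m - a) x := ⟨_, rfl⟩
  have heW : e ∈ W₁ := by rw [he]; exact W₁.smul_mem _ (G.pst W₁ hW₁ _ x hx)
  have heP : P (m - a) e = e := by rw [he, map_smul, G.idem]
  have hue : ψ u e = 1 := by rw [he, map_smul, smul_eq_mul, inv_mul_cancel₀ hxne]
  have he0 : e ≠ 0 := by
    rintro rfl
    simp at hue
  have hline : ∀ y, P (m - a) y = y → ∃ t : K, y = t • e := by
    intro y hy
    refine ⟨ψ u y, ?_⟩
    rw [← sub_eq_zero]
    apply nd_eq d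
    intro z
    have hy' : P (m - a) (y - ψ u y • e) = y - ψ u y • e := by
      rw [map_sub, map_smul, hy, heP]
    rw [G.form' hy']
    have e1 : m - (m - a) = a := by abel
    rw [e1]
    obtain ⟨t, ht⟩ := hs _ (G.idem a z)
    rw [ht, map_smul, neg d, map_sub, map_smul, hue, smul_eq_mul, smul_eq_mul]
    ring
  refine ⟨e, heW, heP, hue, hline, ?_⟩
  obtain ⟨k, X, hX, hk, hv, hXe⟩ := hit v G d hW hirr hW₁ hdis hx₀ hx₀0 hxδ heW he0 heP (by
    rw [map_sub, map_sub]
    intro h
    exact hne (sub_right_injective h))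
  have hk0 : k ≠ 0 := by
    rintro rfl
    exact hv (map_zero v)
  have hsk := G.skew d hk0 hX hk
  have hXe' := hk _ _ heP
  have hmain : ∀ x, ψ u x = 0 → ∃ t : K, X x = t • u := by
    intro x hx
    have h0 : P (m - a) x = 0 := by
      obtain ⟨t, ht⟩ := hline _ (G.idem (m - a) x)
      rw [G.form' hua, ht, map_smul, hue, smul_eq_mul, mul_one] at hx
      rw [ht, hx, zero_smul]
    obtain ⟨s, hs'⟩ := G.fin
    have h1 : X x = ∑ l ∈ s, X (P l x) := by
      rw [← map_sum, hs' x]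
    rw [h1]
    refine Finset.sum_induction _ (fun y => ∃ t : K, y = t • u) ?_ ⟨0, by rw [zero_smul]⟩ ?_
    · rintro y z ⟨t, rfl⟩ ⟨t', rfl⟩
      exact ⟨t + t', (add_smul _ _ _).symm⟩
    · intro b _
      by_cases hb : b = m - a
      · exact ⟨0, by rw [hb, h0, map_zero, zero_smul]⟩
      by_cases hXb : X (P b x) = 0
      · exact ⟨0, by rw [hXb, zero_smul]⟩
      have hPb : P b x ≠ 0 := by
        intro h
        rw [h, map_zero] at hXb
        exact hXb rfl
      have hd := hk b _ (G.idem b x)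
      have w1 : Wt P (k + (m - a)) := ⟨_, hXe, hXe'⟩
      have w2 : Wt P b := ⟨_, hPb, G.idem b x⟩
      have w3 : Wt P (m - (k + b)) := G.Wt_dual d ⟨_, hXb, hd⟩
      have hsum : a + (k + (m - a)) + b + (m - (k + b)) = m + m := by abel
      rcases hrel _ _ _ w1 w2 w3 hsum with (h | h | h) | ⟨h, -, -⟩
      · exfalso
        apply hk0
        have e1 : k + m = a + (k + (m - a)) := by abel
        rw [h] at e1
        exact add_eq_right.1 e1
      · exfalso
        apply hb
        rw [← h]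
        abel
      · have e1 : k + b = a := by
          have : a - (k + b) = 0 := by
            have h2 : a + (m - (k + b)) - m = 0 := sub_eq_zero.2 h
            rw [← h2]; abel
          exact (sub_eq_zero.1 this).symm
        rw [e1] at hd
        exact hs _ hd
      · exfalso
        apply hv
        have e1 : v (a + (k + (m - a))) = v k + v m := by
          rw [← map_add]
          congr 1
          abel
        rw [e1] at h
        exact add_eq_right.1 h
  have hXdot := dot_of d hsk hue hmain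
  obtain ⟨w, hw⟩ : ∃ w, w = X e - (ψ (X e) e / 2) • u := ⟨_, rfl⟩
  rw [← hw] at hXdot
  have hwP : P (k + (m - a)) w = w := by
    by_cases hb : k + (m - a) = a
    · rw [hb] at hXe' ⊢
      rw [hw, map_sub, map_smul, hXe', hua]
    · have h0 : ψ (X e) e = 0 := G.form0 hXe' heP (by
        intro h
        apply hb
        have : k + (m - a) + (m - a) - (m - a) = m - (m - a) := by rw [h]
        rw [add_sub_cancel_right] at this
        rw [this]; abel)
      rw [hw, h0, zero_div, zero_smul, sub_zero]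
      exact hXe'
  refine ⟨k, w, hv, ?_, hwP, hXdot ▸ hX, G.form0 hua hwP ?_⟩
  · rintro rfl
    apply hXe
    rw [hXdot, dot_apply]
    simp
  · intro h
    apply hk0
    have e1 : k + m = a + (k + (m - a)) := by abel
    rw [h] at e1
    exact add_eq_right.1 e1

end Pool.Agent.Helper29.F4
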