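import Pool.Agent.Helper29.F4.Main
import Pool.Agent.Helper68.LM.Zariski

/-!
# The multiplicative group of `ℂ` modulo roots of unity
-/

namespace Pool.Agent.Helper29.F4

/-- the multiplicative group of `ℂ` modulo roots of unity, written additively -/
abbrev Lam : Type := (Additive ℂˣ) ⧸ (AddCommGroup.torsion (Additive ℂˣ))

/-- the class of a nonzero complex number -/
def cl (x : ℂˣ) : Lam := QuotientAddGroup.mk (Additive.ofMul x)

lemma cl_mul (x y : ℂˣ) : cl (x * y) = cl x + cl y := rfl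

lemma cl_one : cl 1 = 0 := rfl

/-- `cl` as a homomorphism -/
def clHom : Additive ℂˣ →+ Lam := QuotientAddGroup.mk' _

lemma cl_eq {x y : ℂˣ} : cl x = cl y ↔ ∃ n : ℕ, 0 < n ∧ x ^ n = y ^ n := by
  unfold cl
  rw [QuotientAddGroup.eq, AddCommGroup.mem_torsion, isOfFinAddOrder_iff_nsmul_eq_zero]
  constructor
  · rintro ⟨n, hn, h⟩
    refine ⟨n, hn, ?_⟩
    have h1 : (x⁻¹ * y) ^ n = 1 := h
    rw [mul_pow, inv_pow, inv_mul_eq_one] at h1
    exact h1
  · rintro ⟨n, hn, h⟩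
    refine ⟨n, hn, ?_⟩
    show (x⁻¹ * y) ^ n = 1
    rw [mul_pow, inv_pow, inv_mul_eq_one, h]

/-- a homomorphism to `ℚ` which does not vanish on given nonzero elements -/
lemma exists_phi (F : Finset Lam) (h0 : (0 : Lam) ∉ F) : ∃ φ : Lam →+ ℚ, ∀ f ∈ F, φ f ≠ 0 := by
  classical
  have hrep : ∀ f : Lam, ∃ x : Additive ℂˣ, (QuotientAddGroup.mk x : Lam) = f :=
    fun f => QuotientAddGroup.mk_surjective f
  choose r hr using hrep
  have hne : ∀ f : F, (DivisibleHull.mk (r f) 1) ≠ 0 := by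
    rintro ⟨f, hf⟩ h
    apply h0
    have h1 : DivisibleHull.mk (r f) 1 = DivisibleHull.mk (0 : Additive ℂˣ) 1 := by
      rw [h, DivisibleHull.mk_zero]
    rw [DivisibleHull.mk_eq_mk] at h1
    obtain ⟨u, hu⟩ := h1
    have h2 : f = 0 := by
      rw [← hr f]
      refine (QuotientAddGroup.eq_zero_iff _).2 ?_
      rw [AddCommGroup.mem_torsion, isOfFinAddOrder_iff_nsmul_eq_zero]
      refine ⟨u, u.pos, ?_⟩
      simpa using hu
    rwa [h2] at hf
  obtain ⟨φ, hφ⟩ := Module.exists_dual_forall_apply_ne_zero (K := ℚ)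
    (fun f : F => DivisibleHull.mk (r f) 1) hne
  obtain ⟨ψ, hψ⟩ : ∃ ψ : Additive ℂˣ →+ ℚ, ∀ x, ψ x = φ (DivisibleHull.mk x 1) :=
    ⟨φ.toAddMonoidHom.comp (DivisibleHull.coeAddMonoidHom _), fun x => rfl⟩
  refine ⟨QuotientAddGroup.lift _ ψ ?_, ?_⟩
  · intro x hx
    rw [AddCommGroup.mem_torsion, isOfFinAddOrder_iff_nsmul_eq_zero] at hx
    obtain ⟨n, hn, h⟩ := hx
    have h1 : n • ψ x = 0 := by rw [← map_nsmul, h, map_zero]
    rw [AddMonoidHom.mem_ker]
    rcases smul_eq_zero.1 h1 with h2 | h2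
    · omega
    · exact h2
  · intro f hf
    rw [← hr f, QuotientAddGroup.lift_mk, hψ]
    exact hφ ⟨f, hf⟩

end Pool.Agent.Helper29.F4
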